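import Pool.Agent.H16.Simp4.Main
import Pool.Agent.H34.Simp3.Asm2

/-!
# MP_339db4_co: simplices in sets of positive upper density, in dimension at least three
-/

open MeasureTheory Filter

namespace Pool.Agent.Results.MP_339db4_co.AllDensitiesDimThree

/-- The cube `[-T, T] ^ d`. -/
def cube (d : ℕ) (T : ℝ) : Set (EuclideanSpace ℝ (Fin d)) := {x | ∀ i, |x i| ≤ T}

/-- The upper density of a set. -/
noncomputable def upperDensity {d : ℕ} (A : Set (EuclideanSpace ℝ (Fin d))) : ℝ :=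
  limsup (fun T : ℝ => (volume (A ∩ cube d T)).toReal / (volume (cube d T)).toReal) atTop

/-- For every `d ≥ 3`, every non-degenerate configuration `P` of `d + 1` points of `ℝ ^ d` has the
large-dilates property: every Lebesgue measurable set `A` of positive upper density contains a
congruent copy of `l P` for all large `l`. -/
theorem result (d : ℕ) (hd : 3 ≤ d) (P : Fin (d + 1) → EuclideanSpace ℝ (Fin d))
    (hP : AffineIndependent ℝ P) (A : Set (EuclideanSpace ℝ (Fin d)))
    (hA : NullMeasurableSet A volume) (hdens : 0 < upperDensity A) :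
    ∃ l₀ : ℝ, 0 < l₀ ∧ ∀ l : ℝ, l₀ ≤ l →
      ∃ (x : EuclideanSpace ℝ (Fin d)) (O : EuclideanSpace ℝ (Fin d) ≃ₗᵢ[ℝ]
        EuclideanSpace ℝ (Fin d)), ∀ i, x + O (l • P i) ∈ A := by
  have key : ∃ l₀ : ℝ, ∀ l : ℝ, l₀ ≤ l →
      ∃ (x : EuclideanSpace ℝ (Fin d)) (O : EuclideanSpace ℝ (Fin d) ≃ₗᵢ[ℝ]
        EuclideanSpace ℝ (Fin d)), ∀ i, x + O (l • P i) ∈ A := by
    rcases Nat.lt_or_ge 3 d with h4 | h3
    · exact Pool.Agent.H16.Simp.main4 h4 P hP A hA hdens
    · obtain rfl : d = 3 := le_antisymm h3 hd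
      exact Pool.Agent.H34.Simp3.main3 P hP A hA hdens
  obtain ⟨l₀, h⟩ := key
  exact ⟨max l₀ 1, lt_of_lt_of_le one_pos (le_max_right _ _),
    fun l hl => h l ((le_max_left _ _).trans hl)⟩

end Pool.Agent.Results.MP_339db4_co.AllDensitiesDimThree
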