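import Pool.Agent.H16.Simp.Main

/-!
# MP_339db4_co: simplices in sets of upper density larger than `2/5`
-/

open MeasureTheory Filter

namespace Pool.Agent.Results.MP_339db4_co.DensityTwoFifths

/-- The cube `[-T, T] ^ d`. -/
def cube (d : ℕ) (T : ℝ) : Set (EuclideanSpace ℝ (Fin d)) := {x | ∀ i, |x i| ≤ T}

/-- The upper density of a set. -/
noncomputable def upperDensity {d : ℕ} (A : Set (EuclideanSpace ℝ (Fin d))) : ℝ :=
  limsup (fun T : ℝ => (volume (A ∩ cube d T)).toReal / (volume (cube d T)).toReal) atTop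

/-- For every `d ≥ 2` and every non-degenerate configuration `P` of `d + 1` points of `ℝ ^ d`, every
Lebesgue measurable set `A` of upper density larger than `2 / 5` contains a congruent copy of `l P`
for all large `l`. -/
theorem result (d : ℕ) (hd : 2 ≤ d) (P : Fin (d + 1) → EuclideanSpace ℝ (Fin d))
    (hP : AffineIndependent ℝ P) (A : Set (EuclideanSpace ℝ (Fin d)))
    (hA : NullMeasurableSet A volume) (hdens : 2 / 5 < upperDensity A) :
    ∃ l₀ : ℝ, 0 < l₀ ∧ ∀ l : ℝ, l₀ ≤ l →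
      ∃ (x : EuclideanSpace ℝ (Fin d)) (O : EuclideanSpace ℝ (Fin d) ≃ₗᵢ[ℝ]
        EuclideanSpace ℝ (Fin d)), ∀ i, x + O (l • P i) ∈ A := by
  obtain ⟨l₀, h⟩ := Pool.Agent.H16.Simp.main hd P hP A hA hdens
  exact ⟨max l₀ 1, lt_of_lt_of_le one_pos (le_max_right _ _),
    fun l hl => h l ((le_max_left _ _).trans hl)⟩

end Pool.Agent.Results.MP_339db4_co.DensityTwoFifths
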